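import Mathlib

set_option autoImplicit false

open Set Filter Topology

namespace Pool.Agent.Results.MP_28bd58_gt.Ratio

/-- `1 / T`, where `X + T v` is the point at which the ray from `X` in direction `v` leaves `M`
(the value is `0` if the ray stays in `M`, i.e. the end point is at infinity, and for `v = 0`). -/
noncomputable def invExit (M : Set (ℝ × ℝ)) (X v : ℝ × ℝ) : ℝ :=
  sInf {r : ℝ | 0 < r ∧ X + r⁻¹ • v ∈ M}

/-- The Hilbert distance. With chord ends `A = X - S (Y - X)` and `B = X + T (Y - X)` one has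
`(X,Y;A) = S / (1 + S)` and `(X,Y;B) = T / (T - 1)`, so
`|log (X,Y;A,B)| = log ((1 + 1 / S) / (1 - 1 / T))`. -/
noncomputable def hdist (M : Set (ℝ × ℝ)) (X Y : ℝ × ℝ) : ℝ :=
  (1 / 2) * Real.log ((1 + invExit M X (X - Y)) / (1 - invExit M X (Y - X)))

/-- `F` is a foot of `O` on the line through `B` and `C`. -/
def IsFoot (M : Set (ℝ × ℝ)) (O B C F : ℝ × ℝ) : Prop :=
  F ∈ M ∧ F ∈ affineSpan ℝ {B, C} ∧ ∀ X ∈ M, X ∈ affineSpan ℝ {B, C} → hdist M O F ≤ hdist M O X

/-- The values of the ratio over all triangles `ABC` in `M` and all `O` inside them. -/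
def ratios (M : Set (ℝ × ℝ)) : Set ℝ :=
  {ρ | ∃ O A B C P Q R : ℝ × ℝ, A ∈ M ∧ B ∈ M ∧ C ∈ M ∧ ¬ Collinear ℝ {A, B, C} ∧
    (∃ a b c : ℝ, 0 < a ∧ 0 < b ∧ 0 < c ∧ a + b + c = 1 ∧ O = a • A + b • B + c • C) ∧
    IsFoot M O B C P ∧ IsFoot M O C A Q ∧ IsFoot M O A B R ∧
    ρ = (Real.tanh (hdist M O A) + Real.tanh (hdist M O B) + Real.tanh (hdist M O C)) /
      (Real.tanh (hdist M O P) + Real.tanh (hdist M O Q) + Real.tanh (hdist M O R))}

/-- The Erdos ratio of the Hilbert plane `M`. -/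
noncomputable def erdosRatio (M : Set (ℝ × ℝ)) : ℝ := sInf (ratios M)

lemma noLine {M : Set (ℝ × ℝ)} (ho : IsOpen M) (hc : Convex ℝ M) (hs : StrictConvex ℝ (closure M))
    (hu : M ≠ univ) {p v : ℝ × ℝ} (hv : v ≠ 0) (h : ∀ t : ℝ, p + t • v ∈ M) : False := by
  obtain ⟨b, hb, hb'⟩ := nonempty_frontier_iff.2 ⟨⟨_, h 0⟩, hu⟩
  have k : ∀ t : ℝ, b + t • v ∈ closure M := fun t => by
    have l : Tendsto (fun n : ℕ => b + t • v + (1 / ((n : ℝ) + 1)) • (p - b)) atTop (𝓝 (b + t • v)) := by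
      simpa using (tendsto_one_div_add_atTop_nhds_zero_nat (𝕜 := ℝ).smul_const (p - b)).const_add
        (b + t • v)
    refine isClosed_closure.mem_of_tendsto l (.of_forall fun n => ?_)
    have p0 : (0 : ℝ) < 1 / (n + 1) := by positivity
    have := hc.closure hb (subset_closure (h (t * (n + 1)))) (a := 1 - 1 / (n + 1)) (b := 1 / (n + 1))
      (by rw [sub_nonneg, div_le_one (by positivity)]; simp) p0.le (by ring)
    convert this using 1
    rw [smul_add, smul_smul, show 1 / ((n : ℝ) + 1) * (t * (n + 1)) = t by field_simp]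
    module
  have := hs (k 1) (k (-1)) (fun e => hv (by
    have : (2 : ℝ) • v = 0 := by
      rw [show (2 : ℝ) • v = b + (1 : ℝ) • v - (b + (-1 : ℝ) • v) by module, e, sub_self]
    simpa using this)) (a := 1 / 2) (b := 1 / 2) (by norm_num) (by norm_num) (by norm_num)
  rw [hc.interior_closure_eq_interior_of_nonempty_interior (by rw [ho.interior_eq]; exact ⟨_, h 0⟩),
    show (1 / 2 : ℝ) • (b + (1 : ℝ) • v) + (1 / 2 : ℝ) • (b + (-1 : ℝ) • v) = b by module] at this
  exact hb' this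

theorem result (M : Set (ℝ × ℝ)) (ho : IsOpen M) (hc : Convex ℝ M)
    (hs : StrictConvex ℝ (closure M)) (hu : M ≠ univ) (hne : M.Nonempty) :
    (∀ ε > 0, ∃ ρ ∈ ratios M, ρ < 2 + ε) ∧ erdosRatio M ≤ 2 := by
  have gen : ∀ O ∈ M, ∃ g : ℝ × ℝ → ℝ, Continuous g ∧ (∀ v, 0 ≤ g v) ∧ g 0 = 0 ∧
      (∀ X, X ∈ M ↔ g (X - O) < 1) ∧ (∀ t : ℝ, 0 ≤ t → ∀ v, g (t • v) = t * g v) ∧
      ∀ v, invExit M O v = g v := fun O hO => by
    have hn : (fun v => O + v) ⁻¹' M ∈ 𝓝 (0 : ℝ × ℝ) :=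
      (ho.preimage (by fun_prop)).mem_nhds (by simpa using hO)
    have hc' := hc.translate_preimage_right O
    refine ⟨gauge ((fun v => O + v) ⁻¹' M), continuous_gauge hc' hn, gauge_nonneg, gauge_zero,
      fun X => ?_, fun t ht v => gauge_smul_of_nonneg ht v, fun v => by rw [gauge_def']; rfl⟩
    rw [gauge_lt_one_iff_mem_interior hc' hn, (ho.preimage (by fun_prop)).interior_eq]
    simp
  have nn : ∀ O ∈ M, ∀ X ∈ M, 0 ≤ Real.tanh (hdist M O X) := fun O hO X hX => by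
    obtain ⟨g, -, g0, -, g1, -, g2⟩ := gen O hO
    have := (g1 X).1 hX
    rw [Real.tanh_eq_sinh_div_cosh]
    refine div_nonneg (Real.sinh_nonneg_iff.2 (mul_nonneg (by norm_num) (Real.log_nonneg ?_)))
      (Real.cosh_pos _).le
    rw [g2, g2, le_div_iff₀ (by linarith)]
    linarith [g0 (O - X), g0 (X - O)]
  have main : ∀ ε > 0, ∃ ρ ∈ ratios M, ρ < 2 + ε := by
    intro ε ε0
    obtain ⟨O, hO⟩ := hne
    obtain ⟨g, gc, g0, gz, g1, gh, g2⟩ := gen O hO
    have gp : ∀ v, v ≠ 0 → 0 < g v + g (-v) := fun v hv => by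
      by_contra e
      have a : g v = 0 := by linarith [g0 v, g0 (-v)]
      have b : g (-v) = 0 := by linarith [g0 v, g0 (-v)]
      refine noLine ho hc hs hu (p := O) hv fun t => (g1 _).2 ?_
      rw [add_sub_cancel_left]
      rcases le_total 0 t with ht | ht
      · simp [gh t ht, a]
      · rw [← neg_smul_neg, gh _ (neg_nonneg.2 ht), b]; simp
    obtain ⟨u, hu1, hm⟩ := (isCompact_sphere (0 : ℝ × ℝ) 1).exists_isMinOn (f := fun v => g v + g (-v))
      ⟨(1, 0), by simp⟩ (by fun_prop)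
    have m0 := gp u (by rintro rfl; simp at hu1)
    have lo : ∀ v, (g u + g (-u)) * ‖v‖ ≤ g v + g (-v) := fun v => by
      by_cases hv : v = 0
      · simp [hv, gz]
      have n := norm_pos_iff.2 hv
      have : g u + g (-u) ≤ g (‖v‖⁻¹ • v) + g (-(‖v‖⁻¹ • v)) := hm (by simp [norm_smul, n.ne'])
      rw [← smul_neg, gh _ (by positivity), gh _ (by positivity), ← mul_add, le_inv_mul_iff₀ n] at this
      linarith
    let φ : ℝ × ℝ → ℝ := fun X => (1 + g (O - X)) / (1 - g (X - O))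
    have eφ : ∀ X, hdist M O X = 1 / 2 * Real.log (φ X) := fun X => by rw [hdist, g2, g2]
    have φp : ∀ X ∈ M, 0 < φ X := fun X hX =>
      div_pos (by linarith [g0 (O - X)]) (sub_pos.2 ((g1 X).1 hX))
    have φc : ContinuousOn φ M := ContinuousOn.div (by fun_prop) (by fun_prop) fun X hX =>
      (sub_pos.2 ((g1 X).1 hX)).ne'
    have foot : ∀ B ∈ M, ∀ C, ∃ F, IsFoot M O B C F := fun B hB C => by
      have sub : ∀ X, 1 + g (O - X) ≤ φ B * (1 - g (X - O)) → X ∈ M := fun X h => (g1 X).2 (by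
        have := φp B hB
        nlinarith [g0 (O - X)])
      obtain ⟨F, hF, hmin⟩ := (Metric.isCompact_of_isClosed_isBounded
        (s := (affineSpan ℝ {B, C} : Set (ℝ × ℝ)) ∩ {X | 1 + g (O - X) ≤ φ B * (1 - g (X - O))})
        ((AffineSubspace.closed_of_finiteDimensional _).inter (isClosed_le (by fun_prop) (by fun_prop)))
        ((Metric.isBounded_closedBall (x := O) (r := (1 + φ B) / (g u + g (-u)))).subset
          fun X hX => by
            have a := lo (X - O)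
            have b : 1 + g (O - X) ≤ φ B * (1 - g (X - O)) := hX.2
            rw [mem_closedBall_iff_norm, le_div_iff₀ m0]
            rw [neg_sub] at a
            nlinarith [(g1 X).1 (sub X b), mul_nonneg (φp B hB).le (g0 (X - O))])).exists_isMinOn
        ⟨B, left_mem_affineSpan_pair _ _ _, (div_le_iff₀ (sub_pos.2 ((g1 B).1 hB))).1 le_rfl⟩
        (φc.mono fun X hX => sub X hX.2)
      refine ⟨F, sub F hF.2, hF.1, fun X hX hX' => ?_⟩
      rw [eφ, eφ]
      refine mul_le_mul_of_nonneg_left (Real.log_le_log (φp F (sub F hF.2)) ?_) (by norm_num)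
      rcases le_total (φ X) (φ B) with e | e
      · exact hmin ⟨hX', (div_le_iff₀ (sub_pos.2 ((g1 X).1 hX))).1 e⟩
      · exact le_trans (hmin ⟨left_mem_affineSpan_pair _ _ _,
          (div_le_iff₀ (sub_pos.2 ((g1 B).1 hB))).1 le_rfl⟩) e
    have ev : ∀ X ∈ M, ∀ v : ℝ × ℝ, ∀ᶠ δ : ℝ in 𝓝[>] 0, X + δ • v ∈ M := fun X hX v =>
      nhdsWithin_le_nhds ((show Continuous fun δ : ℝ => X + δ • v by
        fun_prop).continuousAt.eventually_mem (ho.mem_nhds (by simpa using hX)))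
    obtain ⟨h, m1, h0⟩ := ((ev O hO (0, 1)).and self_mem_nhdsWithin).exists
    have h0 : 0 < h := h0
    obtain ⟨P, hP, hP1, hP2⟩ := foot _ m1 (O + h • ((0, 1) : ℝ × ℝ) + (1, 0))
    have P2 : P.2 = O.2 + h := by
      obtain ⟨l, rfl⟩ := mem_affineSpan_pair_iff_exists_lineMap_eq.1 hP1
      simp [AffineMap.lineMap_apply]
    have tc : ∀ X ∈ M, ∀ v : ℝ × ℝ, Tendsto (fun δ : ℝ => Real.tanh (hdist M O (X + δ • v))) (𝓝[>] 0)
        (𝓝 (Real.tanh (hdist M O X))) := fun X hX v => by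
      have l : Tendsto (fun δ : ℝ => X + δ • v) (𝓝[>] 0) (𝓝 X) := by
        simpa using ((show Continuous fun δ : ℝ => X + δ • v by fun_prop).tendsto 0).mono_left
          (nhdsWithin_le_nhds (s := Ioi 0))
      simp only [eφ, Real.tanh_eq_sinh_div_cosh]
      have l2 := (((φc.continuousAt (ho.mem_nhds hX)).tendsto.comp l).log (φp X hX).ne').const_mul
        (1 / 2)
      exact ((Real.continuous_sinh.tendsto _).comp l2).div ((Real.continuous_cosh.tendsto _).comp l2)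
        (Real.cosh_pos _).ne'
    have pP : 0 < Real.tanh (hdist M O P) := by
      rw [Real.tanh_eq_sinh_div_cosh, eφ]
      refine div_pos (Real.sinh_pos_iff.2 (mul_pos (by norm_num) (Real.log_pos ?_))) (Real.cosh_pos _)
      rw [lt_div_iff₀ (sub_pos.2 ((g1 P).1 hP))]
      have := gp (P - O) (by rw [Ne, sub_eq_zero]; rintro rfl; linarith)
      rw [neg_sub] at this
      linarith
    have l := ((tc O hO (O - P)).add (tc P hP (1, 0))).add (tc P hP (-1, 0))
    rw [show Real.tanh (hdist M O O) = 0 by simp [eφ, φ, gz]] at l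
    obtain ⟨δ, ⟨⟨⟨a1, a2⟩, a3⟩, a4⟩, δ0⟩ := (((((ev O hO (O - P)).and (ev P hP (1, 0))).and
      (ev P hP (-1, 0))).and (l.eventually (gt_mem_nhds (show _ < (2 + ε) * Real.tanh (hdist M O P) by
        nlinarith)))).and self_mem_nhdsWithin).exists
    have δ0 : 0 < δ := δ0
    obtain ⟨Q, hQ⟩ := foot _ a3 (O + δ • (O - P))
    obtain ⟨R, hR⟩ := foot _ a1 (P + δ • ((1, 0) : ℝ × ℝ))
    refine ⟨_, ⟨O, _, _, _, P, Q, R, a1, a2, a3, fun hcol => ?_, ⟨1 / (1 + δ), δ / (2 * (1 + δ)),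
      δ / (2 * (1 + δ)), by positivity, by positivity, by positivity, by field_simp; ring, ?_⟩,
      ⟨hP, mem_affineSpan_pair_iff_exists_lineMap_eq.2 ⟨1 / 2, ?_⟩, fun X hX hX' => hP2 X hX ?_⟩,
      hQ, hR, rfl⟩, ?_⟩
    · obtain ⟨l, hl⟩ := mem_affineSpan_pair_iff_exists_lineMap_eq.1
        (hcol.mem_affineSpan_of_mem_of_ne (p₁ := P + δ • ((1, 0) : ℝ × ℝ))
          (p₂ := P + δ • ((-1, 0) : ℝ × ℝ)) (p₃ := O + δ • (O - P)) (by simp) (by simp) (by simp)
          (fun e => by have := congrArg Prod.fst e; simp at this; linarith))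
      have := congrArg Prod.snd hl
      simp [AffineMap.lineMap_apply, P2] at this
      nlinarith
    · ext <;> simp <;> field_simp <;> ring
    · ext <;> simp [AffineMap.lineMap_apply]; ring
    · obtain ⟨l, rfl⟩ := mem_affineSpan_pair_iff_exists_lineMap_eq.1 hX'
      refine mem_affineSpan_pair_iff_exists_lineMap_eq.2 ⟨P.1 + δ - 2 * l * δ - O.1, ?_⟩
      ext <;> simp [AffineMap.lineMap_apply, P2]; ring
    · have := nn O hO Q hQ.1
      have := nn O hO R hR.1
      rw [div_lt_iff₀ (by linarith)]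
      nlinarith
  refine ⟨main, le_of_forall_pos_le_add fun ε ε0 => ?_⟩
  obtain ⟨ρ, h1, h2⟩ := main ε ε0
  refine (csInf_le ⟨0, ?_⟩ h1).trans h2.le
  rintro _ ⟨O, A, B, C, P, Q, R, hA, hB, hC, -, ⟨a, b, c, a0, b0, c0, e, rfl⟩, hP, hQ, hR, rfl⟩
  have hO : a • A + b • B + c • C ∈ M := by
    have := hc.sum_mem (t := Finset.univ) (w := ![a, b, c]) (z := ![A, B, C])
      (fun i _ => by fin_cases i <;> simp <;> positivity) (by simp [Fin.sum_univ_three, e])
      (fun i _ => by fin_cases i <;> simpa)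
    simpa [Fin.sum_univ_three] using this
  exact div_nonneg (add_nonneg (add_nonneg (nn _ hO _ hA) (nn _ hO _ hB)) (nn _ hO _ hC))
    (add_nonneg (add_nonneg (nn _ hO _ hP.1) (nn _ hO _ hQ.1)) (nn _ hO _ hR.1))

end Pool.Agent.Results.MP_28bd58_gt.Ratio
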